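import Pool.Agent.helper19.HF.SpecD
import Pool.Agent.helper76.DK.CLF

/-!
# Row hy:CLY (MP_bf63dc_nt), spec Pool/Agent/helper19/HF/SpecD.lean
-/

set_option autoImplicit false

namespace Pool.Agent.HF

open Finset Pool.Agent.AT Pool.Agent.IT

theorem CLY_sg0 (β : Fin 4) (h : β.val < 2) : sg β = 0 := by
  fin_cases β
  · rfl
  · rfl
  · exact absurd h (by decide)
  · exact absurd h (by decide)

theorem CLY_sg1 (β : Fin 4) (h : ¬ β.val < 2) : sg β = 1 := by
  fin_cases β
  · exact absurd (by decide) h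
  · exact absurd (by decide) h
  · rfl
  · rfl

theorem CLY_digits (K p : ℕ) : p = p / (K * K) * (K * K) + p / K % K * K + p % K := by
  have h1 := Nat.div_add_mod p K
  have h2 := Nat.div_add_mod (p / K) K
  rw [Nat.div_div_eq_div_mul] at h2
  have h3 : p / (K * K) * (K * K) + p / K % K * K + p % K = K * (K * (p / (K * K)) + p / K % K) + p % K := by ring
  rw [h3, h2, h1]

/-- the block of the first or second kind of a side -/
def CLY_ty (s t : Fin 2) : Fin 4 := ⟨2 * s.val + t.val, by omega⟩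

theorem CLY_sgty (s t : Fin 2) : sg (CLY_ty s t) = s := by
  fin_cases s <;> fin_cases t <;> rfl

theorem CLY_prod {A B : Type} [Fintype A] [Fintype B] (Pr : A → B → Prop) [∀ x y, Decidable (Pr x y)] [DecidablePred fun p : A × B => Pr p.1 p.2] (c : ℝ)
    (h : ∀ x, (#{y : B | Pr x y} : ℝ) ≤ c) : (#{p : A × B | Pr p.1 p.2} : ℝ) ≤ Fintype.card A * c := by
  have h1 : (#{p : A × B | Pr p.1 p.2} : ℝ) = ∑ x : A, (#{y : B | Pr x y} : ℝ) := by
    simp only [card_filter, Nat.cast_sum, Nat.cast_ite, Nat.cast_one, Nat.cast_zero]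
    rw [Fintype.sum_prod_type]
    refine sum_congr rfl fun x _ => sum_congr rfl fun y _ => ?_
    by_cases hp : Pr x y
    · rw [if_pos hp, if_pos hp]
    · rw [if_neg hp, if_neg hp]
  rw [h1]
  calc ∑ x : A, (#{y : B | Pr x y} : ℝ) ≤ ∑ _x : A, c := sum_le_sum fun x _ => h x
    _ = Fintype.card A * c := by rw [sum_const, card_univ, nsmul_eq_mul]

theorem CLY : CLY_stmt := by
  classical
  intro hQ a b ha hb hab n η hn hη
  obtain ⟨D, K, hD, hK, hF⟩ := Pool.Agent.DK.CLF hQ a b ha hb n η hn hη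
  refine ⟨D, K, hD, hK, ?_⟩
  intro h₀ h₁ hc₀ hc₁ R P x y hR hP hxy hinj hbad hne
  have hKpos : 0 < K := hK
  -- the forms for fixed places
  obtain ⟨Q, hQd⟩ : ∃ Q : (Fin n → Fin 2 → Fin R) → Fin n × Fin 4 → Fin K → ℤ,
      Q = fun (τ : Fin n → Fin 2 → Fin R) (z : Fin n × Fin 4) (l : Fin K) => P (sg z.2) (τ z.1 (sg z.2) : ℕ) + (if z.2.val % 2 = 0 then x (l : ℕ) else y (l : ℕ)) := ⟨_, rfl⟩
  have hQinj : ∀ τ z, Function.Injective (Q τ z) := by
    intro τ z l l' hll
    rw [hQd] at hll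
    dsimp only at hll
    have h1 := add_left_cancel hll
    by_contra hne'
    have h2 : (l : ℕ) ≠ l' := fun h => hne' (Fin.ext h)
    have h3 := hinj l l.2 l' l'.2 h2
    split_ifs at h1
    · exact h3.1 h1
    · exact h3.2 h1
  have hQdvd : ∀ τ z l, (D : ℤ) ∣ Q τ z l - Pool.Agent.DK.rs h₀ h₁ z.2 := by
    intro τ z l
    have h1 : (D : ℤ) ∣ (if z.2.val % 2 = 0 then x (l : ℕ) else y (l : ℕ)) := by
      split_ifs
      · exact (hxy l l.2).1
      · exact (hxy l l.2).2
    rw [hQd]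
    dsimp only
    unfold Pool.Agent.DK.rs
    by_cases hz : z.2.val < 2
    · rw [if_pos hz, CLY_sg0 _ hz]
      have h2 := dvd_add (hP (τ z.1 0 : ℕ)).1 h1
      have e : P 0 (τ z.1 0 : ℕ) - h₀ + (if z.2.val % 2 = 0 then x (l : ℕ) else y (l : ℕ)) =
          P 0 (τ z.1 0 : ℕ) + (if z.2.val % 2 = 0 then x (l : ℕ) else y (l : ℕ)) - h₀ := by ring
      rwa [e] at h2
    · rw [if_neg hz, CLY_sg1 _ hz]
      have h2 := dvd_add (hP (τ z.1 1 : ℕ)).2 h1
      have e : P 1 (τ z.1 1 : ℕ) - h₁ + (if z.2.val % 2 = 0 then x (l : ℕ) else y (l : ℕ)) =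
          P 1 (τ z.1 1 : ℕ) + (if z.2.val % 2 = 0 then x (l : ℕ) else y (l : ℕ)) - h₁ := by ring
      rwa [e] at h2
  have hstep : ∀ τ : Fin n → Fin 2 → Fin R, (#{c : Fin n × Fin 4 → Fin K | ¬ ∃ J, Pool.Agent.DK.Lcq a b (fun z => Q τ z (c z)) J} : ℝ) ≤ η * (K : ℝ) ^ (n * 4) :=
    fun τ => hF h₀ h₁ hc₀ hc₁ (Q τ) (hQinj τ) (hQdvd τ)
  have htot := CLY_prod (A := Fin n → Fin 2 → Fin R) (B := Fin n × Fin 4 → Fin K)
    (fun τ c => ¬ ∃ J, Pool.Agent.DK.Lcq a b (fun z => Q τ z (c z)) J) _ hstep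
  -- the coordinates of a sample
  have hdiv : ∀ p : ℕ, p < R * (K * K) → p / (K * K) < R := fun p hp => Nat.div_lt_of_lt_mul (by rw [mul_comm]; exact hp)
  obtain ⟨Φ, hΦ⟩ : ∃ Φ : Om n 2 (R * (K * K)) → (Fin n → Fin 2 → Fin R) × (Fin n × Fin 4 → Fin K),
      Φ = fun (ω : Om n 2 (R * (K * K))) => (fun (h : Fin n) (s : Fin 2) => ⟨(ω h s : ℕ) / (K * K), hdiv _ (ω h s).2⟩,
        fun (z : Fin n × Fin 4) => if z.2.val % 2 = 0 then ⟨(ω z.1 (sg z.2) : ℕ) / K % K, Nat.mod_lt _ hKpos⟩ else ⟨(ω z.1 (sg z.2) : ℕ) % K, Nat.mod_lt _ hKpos⟩) := ⟨_, rfl⟩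
  have hfm : ∀ (ω : Om n 2 (R * (K * K))) (z : Fin n × Fin 4), Q (Φ ω).1 z ((Φ ω).2 z) = fmY P x y K z.2 (ω z.1 (sg z.2)) := by
    intro ω z
    rw [hQd, hΦ]
    unfold fmY
    dsimp only
    by_cases hz : z.2.val % 2 = 0
    · rw [if_pos hz, if_pos hz, if_pos hz]
    · rw [if_neg hz, if_neg hz, if_neg hz]
  have hΦinj : Function.Injective Φ := by
    intro ω ω' h
    funext m s
    have h1 : (ω m s : ℕ) / (K * K) = (ω' m s : ℕ) / (K * K) := by
      have := congrFun (congrFun (congrArg Prod.fst h) m) s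
      rw [hΦ] at this
      exact congrArg Fin.val this
    have h2 : (ω m s : ℕ) / K % K = (ω' m s : ℕ) / K % K := by
      have := congrFun (congrArg Prod.snd h) (m, CLY_ty s 0)
      rw [hΦ] at this
      dsimp only at this
      have e : (CLY_ty s 0).val % 2 = 0 := by
        show (2 * s.val + 0) % 2 = 0
        omega
      rw [if_pos e, if_pos e, CLY_sgty] at this
      exact congrArg Fin.val this
    have h3 : (ω m s : ℕ) % K = (ω' m s : ℕ) % K := by
      have := congrFun (congrArg Prod.snd h) (m, CLY_ty s 1)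
      rw [hΦ] at this
      dsimp only at this
      have e : ¬ (CLY_ty s 1).val % 2 = 0 := by
        show ¬ (2 * s.val + 1) % 2 = 0
        omega
      rw [if_neg e, if_neg e, CLY_sgty] at this
      exact congrArg Fin.val this
    apply Fin.ext
    rw [CLY_digits K (ω m s), CLY_digits K (ω' m s), h1, h2, h3]
  have hle : #{ω : Om n 2 (R * (K * K)) | ¬ ∃ J : Finset (Fin n × Fin 4), (1 / 4 + 1 / 500000) * ((n : ℝ) * (4 : ℕ)) ≤ #J ∧
      (∀ z ∈ J, ∀ w ∈ J, z.1 = w.1 → sg z.2 = sg w.2 → z.2 = w.2) ∧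
      ∀ z ∈ J, ∀ w ∈ J, z.2.val < 2 → 2 ≤ w.2.val → TC a b (a * fmY P x y K z.2 (ω z.1 (sg z.2)) - b * fmY P x y K w.2 (ω w.1 (sg w.2)))} ≤
      #{p : (Fin n → Fin 2 → Fin R) × (Fin n × Fin 4 → Fin K) | ¬ ∃ J, Pool.Agent.DK.Lcq a b (fun z => Q p.1 z (p.2 z)) J} := by
    refine Finset.card_le_card_of_injOn Φ ?_ (fun ω _ ω' _ h => hΦinj h)
    intro ω hω
    have hω' := (Finset.mem_filter.1 (Finset.mem_coe.1 hω)).2
    refine Finset.mem_coe.2 (Finset.mem_filter.2 ⟨mem_univ _, ?_⟩)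
    rintro ⟨J, hJ1, hJ2⟩
    apply hω'
    refine ⟨J, hJ1, ?_, ?_⟩
    · -- one form for each point
      have key : ∀ z ∈ J, ∀ w ∈ J, z.1 = w.1 → sg z.2 = sg w.2 → z.2.val % 2 = 0 → ¬ w.2.val % 2 = 0 → False := by
        intro z hz w hw h1 h2 h3 h4
        have h5 := hJ2 z hz w hw
        have e1 : Q (Φ ω).1 z ((Φ ω).2 z) = P (sg z.2) ((Φ ω).1 z.1 (sg z.2) : ℕ) + x ((Φ ω).2 z : ℕ) := by
          rw [hQd]
          dsimp only
          rw [if_pos h3]
        have e2 : Q (Φ ω).1 w ((Φ ω).2 w) = P (sg z.2) ((Φ ω).1 z.1 (sg z.2) : ℕ) + y ((Φ ω).2 w : ℕ) := by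
          rw [hQd]
          dsimp only
          rw [if_neg h4, ← h2, ← h1]
        have esl : Pool.Agent.DK.sl a b w.2 = Pool.Agent.DK.sl a b z.2 := by
          unfold Pool.Agent.DK.sl
          by_cases hz2 : z.2.val < 2
          · have hw2 : w.2.val < 2 := by
              by_contra hcon
              rw [CLY_sg0 _ hz2, CLY_sg1 _ hcon] at h2
              exact absurd h2 (by decide)
            rw [if_pos hz2, if_pos hw2]
          · have hw2 : ¬ w.2.val < 2 := by
              intro hcon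
              rw [CLY_sg1 _ hz2, CLY_sg0 _ hcon] at h2
              exact absurd h2 (by decide)
            rw [if_neg hz2, if_neg hw2]
        have hslpos : 1 ≤ Pool.Agent.DK.sl a b z.2 := by
          unfold Pool.Agent.DK.sl
          split_ifs
          · exact hb
          · exact ha
        have hb2 := hbad ((Φ ω).2 z : ℕ) ((Φ ω).2 z).2 ((Φ ω).2 w : ℕ) ((Φ ω).2 w).2
        rw [esl] at h5
        have h6 := h5 (by
          intro h7
          have h8 := congrArg Prod.snd h7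
          dsimp only at h8
          rw [e1, e2] at h8
          exact hb2.1 (add_left_cancel h8))
        have h7 := CLZ_same _ _ _ hslpos h6
        dsimp only at h7
        rw [e1, e2] at h7
        apply hb2.2
        have e3 : P (sg z.2) ((Φ ω).1 z.1 (sg z.2) : ℕ) + x ((Φ ω).2 z : ℕ) - (P (sg z.2) ((Φ ω).1 z.1 (sg z.2) : ℕ) + y ((Φ ω).2 w : ℕ)) =
            x ((Φ ω).2 z : ℕ) - y ((Φ ω).2 w : ℕ) := by ring
        rwa [e3] at h7
      intro z hz w hw h1 h2
      by_cases h3 : z.2.val % 2 = 0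
      · by_cases h4 : w.2.val % 2 = 0
        · apply Fin.ext
          by_cases hz2 : z.2.val < 2
          · have hw2 : w.2.val < 2 := by
              by_contra hcon
              rw [CLY_sg0 _ hz2, CLY_sg1 _ hcon] at h2
              exact absurd h2 (by decide)
            omega
          · have hw2 : ¬ w.2.val < 2 := by
              intro hcon
              rw [CLY_sg1 _ hz2, CLY_sg0 _ hcon] at h2
              exact absurd h2 (by decide)
            omega
        · exact (key z hz w hw h1 h2 h3 h4).elim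
      · by_cases h4 : w.2.val % 2 = 0
        · exact (key w hw z hz h1.symm h2.symm h4 h3).elim
        · apply Fin.ext
          by_cases hz2 : z.2.val < 2
          · have hw2 : w.2.val < 2 := by
              by_contra hcon
              rw [CLY_sg0 _ hz2, CLY_sg1 _ hcon] at h2
              exact absurd h2 (by decide)
            omega
          · have hw2 : ¬ w.2.val < 2 := by
              intro hcon
              rw [CLY_sg1 _ hz2, CLY_sg0 _ hcon] at h2
              exact absurd h2 (by decide)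
            omega
    · intro z hz w hw h1 h2
      have h5 := hJ2 z hz w hw
      dsimp only at h5
      rw [hfm, hfm] at h5
      have e1 : Pool.Agent.DK.sl a b z.2 = b := by
        unfold Pool.Agent.DK.sl
        rw [if_pos h1]
      have e2 : Pool.Agent.DK.sl a b w.2 = a := by
        unfold Pool.Agent.DK.sl
        rw [if_neg (by omega)]
      rw [e1, e2] at h5
      have h6 := h5 (by
        intro h7
        have h8 := congrArg Prod.snd h7
        have h9 := congrArg Prod.fst h7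
        dsimp only at h8 h9
        refine hne z.2 w.2 h1 h2 (ω z.1 (sg z.2) : ℕ) (ω z.1 (sg z.2)).2 (ω w.1 (sg w.2) : ℕ) (ω w.1 (sg w.2)).2 ?_
        rw [h8, h9])
      exact CLZ_diff a b _ _ hab h6
  refine (Nat.cast_le.2 hle).trans (htot.trans (le_of_eq ?_))
  have hc : (Fintype.card (Fin n → Fin 2 → Fin R) : ℝ) = (R : ℝ) ^ (n * 2) := by
    have h1 : Fintype.card (Fin n → Fin 2 → Fin R) = (R ^ 2) ^ n := by simp
    rw [h1]
    push_cast
    rw [← pow_mul, mul_comm 2 n]
  rw [hc]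
  push_cast
  rw [mul_pow, mul_pow]
  have e : (K : ℝ) ^ (n * 4) = (K : ℝ) ^ (n * 2) * (K : ℝ) ^ (n * 2) := by
    rw [← pow_add]
    congr 1
    ring
  rw [e]
  ring

end Pool.Agent.HF
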