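import Pool.Agent.helper19.HF.SpecD
import Pool.Agent.helper76.DK.CLU

/-!
# Project HF (MP_bf63dc_nt): the clusters if the power saving fails
-/

set_option autoImplicit false

namespace Pool.Agent.HF

open Finset

theorem NoTC_of (h : ∀ m K : ℕ, 1 ≤ m → 1 ≤ K → ¬ Pool.Agent.AL.TCM m K) : NoTC := by
  intro s K hs hK
  obtain ⟨z, hinj, hdvd, hbad⟩ := Pool.Agent.DK.CLU h s K hs hK
  obtain ⟨x, hx⟩ : ∃ x : ℕ → ℤ, ∀ i (hi : i < K), x i = z 0 ⟨i, hi⟩ := ⟨fun i => if hi : i < K then z 0 ⟨i, hi⟩ else 0, fun i hi => dif_pos hi⟩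
  obtain ⟨y, hy⟩ : ∃ y : ℕ → ℤ, ∀ i (hi : i < K), y i = z 1 ⟨i, hi⟩ := ⟨fun i => if hi : i < K then z 1 ⟨i, hi⟩ else 0, fun i hi => dif_pos hi⟩
  refine ⟨x, y, ?_, ?_, ?_⟩
  · intro i hi
    rw [hx i hi, hy i hi]
    exact ⟨hdvd _ _, hdvd _ _⟩
  · intro i hi j hj hij
    rw [hx i hi, hy i hi, hx j hj, hy j hj]
    refine ⟨fun h1 => hij ?_, fun h1 => hij ?_⟩
    · exact congrArg Fin.val (hinj 0 h1)
    · exact congrArg Fin.val (hinj 1 h1)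
  · intro i hi j hj
    rw [hx i hi, hy j hj]
    obtain ⟨h1, h2, h3⟩ := hbad ⟨i, hi⟩ ⟨j, hj⟩
    refine ⟨fun h4 => h1 ?_, h3⟩
    rw [h4, sub_self]

end Pool.Agent.HF
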